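import Mathlib

/-!
MP_dd2d88: finite modules over `A = k + m` killed by a power of the finitely generated ideal `m`
are finite dimensional over `k`.
-/

set_option autoImplicit false

namespace Pool.Agent.H60DW

universe u v w

/-- A finite module killed by `m`, where `A = k + m`, is finite dimensional. -/
theorem finite_of_killed {k : Type u} {A : Type v} {M : Type w} [Field k] [CommRing A]
    [Algebra k A] (m : Ideal A) (hres : ∀ a : A, ∃ c : k, a - algebraMap k A c ∈ m)
    [AddCommGroup M] [Module A M] [Module k M] [IsScalarTower k A M] [Module.Finite A M]
    (h : ∀ a ∈ m, ∀ x : M, a • x = 0) : Module.Finite k M := by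
  obtain ⟨s, hs⟩ := Module.Finite.fg_top (R := A) (M := M)
  refine ⟨⟨s, ?_⟩⟩
  rw [eq_top_iff]
  intro x _
  have hx : x ∈ Submodule.span A (s : Set M) := by rw [hs]; trivial
  induction hx using Submodule.span_induction with
  | mem y hy => exact Submodule.subset_span hy
  | zero => exact zero_mem _
  | add y z _ _ hy hz => exact add_mem (hy trivial) (hz trivial)
  | smul a y _ hy =>
    obtain ⟨c, hc⟩ := hres a
    have h1 : a • y = c • y := by
      have h2 := h _ hc y
      rw [sub_smul, algebraMap_smul, sub_eq_zero] at h2
      exact h2
    rw [h1]
    exact Submodule.smul_mem _ _ (hy trivial)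

/-- A finite module killed by a power of the finitely generated ideal `m`, where `A = k + m`, is
finite dimensional. -/
theorem finite_of_pow {k : Type u} {A : Type v} [Field k] [CommRing A]
    [Algebra k A] (m : Ideal A) (hm : m.FG) (hres : ∀ a : A, ∃ c : k, a - algebraMap k A c ∈ m)
    (n : ℕ) : ∀ (M : Type w) [AddCommGroup M] [Module A M] [Module k M] [IsScalarTower k A M]
      [Module.Finite A M], (∀ a ∈ m ^ n, ∀ x : M, a • x = 0) → Module.Finite k M := by
  induction n with
  | zero =>
    intro M _ _ _ _ _ h
    have : Subsingleton M := ⟨fun x y => by
      have h1 := h 1 (by simp) x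
      have h2 := h 1 (by simp) y
      rw [one_smul] at h1 h2
      rw [h1, h2]⟩
    infer_instance
  | succ n ih =>
    intro M _ _ _ _ _ h
    let N : Submodule A M := m • ⊤
    have hN : N.FG := Submodule.FG.smul hm Module.Finite.fg_top
    have : Module.Finite A N := Module.Finite.iff_fg.2 hN
    have h1 : Module.Finite k N := by
      refine ih N fun a ha x => ?_
      obtain ⟨x, hx⟩ := x
      apply Subtype.ext
      show a • x = 0
      refine Submodule.smul_induction_on hx ?_ ?_
      · intro b hb y _
        rw [smul_smul]
        refine h _ ?_ y
        rw [pow_succ]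
        exact Ideal.mul_mem_mul ha hb
      · intro y z hy hz
        rw [smul_add, hy, hz, add_zero]
    have h2 : Module.Finite k (M ⧸ N) := by
      refine finite_of_killed m hres fun a ha x => ?_
      obtain ⟨y, rfl⟩ := Submodule.Quotient.mk_surjective N x
      rw [← Submodule.Quotient.mk_smul, Submodule.Quotient.mk_eq_zero]
      exact Submodule.smul_mem_smul ha trivial
    have h3 : Module.Finite k (N.restrictScalars k) := h1
    have h4 : Module.Finite k (M ⧸ N.restrictScalars k) := h2
    exact Module.Finite.of_submodule_quotient (N.restrictScalars k)

/-- The dimension bounds the length of a chain: if `W 0 ≥ W 1 ≥ ... ≥ W l` are subspaces of a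
finite dimensional space and all the inclusions are strict, then `l` is at most the dimension. -/
theorem chain_le_finrank {k : Type u} {V : Type v} [Field k] [AddCommGroup V] [Module k V]
    [Module.Finite k V] (l : ℕ) (W : ℕ → Submodule k V)
    (h : ∀ i < l, W (i + 1) < W i) : l ≤ Module.finrank k V := by
  have h1 : ∀ i ≤ l, i + Module.finrank k (W i) ≤ Module.finrank k V := by
    intro i
    induction i with
    | zero =>
      intro _
      rw [zero_add]
      exact Submodule.finrank_le _
    | succ i ih =>
      intro hi
      have h2 := ih (by omega)
      have h3 := Submodule.finrank_lt_finrank_of_lt (h i (by omega))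
      omega
  have := h1 l le_rfl
  omega

end Pool.Agent.H60DW
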