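import Mathlib
import Pool.Agent.DWC.Defs
import Pool.Agent.H60DW.FinDim

/-!
MP_dd2d88, step 1 (b): the length of a chain of ideals whose layers are `𝒪_C(-1)` is bounded.
-/

set_option autoImplicit false

open LaurentPolynomial

namespace Pool.Agent.H60DW

open Pool.Agent.DWC

universe u

variable {k : Type u} [Field k]

theorem eq_sum (f : k[T;T⁻¹]) : f = ∑ i ∈ f.coeff.support, C (f.coeff i) * T i := by
  apply LaurentPolynomial.ext
  intro a
  rw [AddMonoidAlgebra.coeff_sum, Finsupp.finsetSum_apply]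
  have h1 : ∀ i ∈ f.coeff.support, (C (f.coeff i) * T i : k[T;T⁻¹]).coeff a =
      if i = a then f.coeff i else 0 := by
    intro i _
    rw [← LaurentPolynomial.single_eq_C_mul_T]
    rw [AddMonoidAlgebra.coeff_single, Finsupp.single_apply]
  rw [Finset.sum_congr rfl h1, Finset.sum_ite_eq']
  split_ifs with h
  · rfl
  · simpa using h

theorem exists_poly {f : k[T;T⁻¹]} (hf : f ∈ Reg0 k) : ∃ p : Polynomial k,
    Polynomial.toLaurent p = f := by
  refine ⟨∑ i ∈ f.coeff.support, Polynomial.monomial i.toNat (f.coeff i), ?_⟩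
  rw [map_sum]
  conv_rhs => rw [eq_sum f]
  refine Finset.sum_congr rfl fun i hi => ?_
  rw [Polynomial.toLaurent_C_mul_T]
  have h0 : 0 ≤ i := by
    by_contra hcon
    have h1 := hf i (by omega)
    rw [Finsupp.mem_support_iff] at hi
    exact hi h1
  rw [Int.toNat_of_nonneg h0]

/-- The ideal of `C` in `B₀`. -/
noncomputable def ideal0 (X : Nbhd k) : Ideal X.B₀ := (RingHom.ker X.res).comap X.B₀.val

theorem mem_ideal0 (X : Nbhd k) (b : X.B₀) : b ∈ ideal0 X ↔ X.res (b : X.B) = 0 := by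
  rw [ideal0, Ideal.mem_comap, RingHom.mem_ker]
  rfl

/-- The coordinate `x` as an element of `B₀`. -/
def x0 (X : Nbhd k) : X.B₀ := ⟨X.x, X.x_mem⟩

/-- `B₀ = k + (x B₀ + I₀)`. -/
theorem res_const (X : Nbhd k) (b : X.B₀) : ∃ c : k,
    b - algebraMap k X.B₀ c ∈ Ideal.span {x0 X} ⊔ ideal0 X := by
  obtain ⟨p, hp⟩ := exists_poly (X.res₀ b b.2)
  refine ⟨p.coeff 0, ?_⟩
  have h1 : b - Polynomial.aeval (x0 X) p ∈ ideal0 X := by
    rw [mem_ideal0]
    have h2 : X.res ((Polynomial.aeval (x0 X) p : X.B₀) : X.B) = Polynomial.toLaurent p := by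
      have h3 : ((Polynomial.aeval (x0 X) p : X.B₀) : X.B) =
          Polynomial.aeval (X.x : X.B) p := by
        rw [← Subalgebra.coe_val, ← Polynomial.aeval_algHom_apply]
        rfl
      rw [h3, ← Polynomial.aeval_algHom_apply, X.res_x]
      have h4 : (Polynomial.aeval (T 1 : k[T;T⁻¹]) : Polynomial k →ₐ[k] k[T;T⁻¹]) =
          Polynomial.toLaurentAlg := by
        apply Polynomial.algHom_ext
        rw [Polynomial.aeval_X, Polynomial.toLaurentAlg_apply, Polynomial.toLaurent_X]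
      rw [h4, Polynomial.toLaurentAlg_apply]
    rw [AddSubgroupClass.coe_sub, map_sub, h2, hp, sub_self]
  have h2 : Polynomial.aeval (x0 X) p - algebraMap k X.B₀ (p.coeff 0) ∈
      Ideal.span {x0 X} := by
    have h3 : Polynomial.X ∣ p - Polynomial.C (p.coeff 0) := by
      rw [Polynomial.X_dvd_iff]
      simp
    obtain ⟨q, hq⟩ := h3
    have h4 := congrArg (Polynomial.aeval (x0 X)) hq
    rw [map_sub, Polynomial.aeval_C, map_mul, Polynomial.aeval_X] at h4
    rw [h4]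
    exact Ideal.mul_mem_right _ _ (Ideal.mem_span_singleton_self _)
  have h3 : b - algebraMap k X.B₀ (p.coeff 0) = (Polynomial.aeval (x0 X) p -
      algebraMap k X.B₀ (p.coeff 0)) + (b - Polynomial.aeval (x0 X) p) := by ring
  rw [h3]
  exact Submodule.add_mem_sup h2 h1

theorem sup_pow_le {A : Type u} [CommRing A] (I J : Ideal A) (n : ℕ) :
    (I ⊔ J) ^ n ≤ I ⊔ J ^ n := by
  induction n with
  | zero => simp
  | succ n ih =>
    rw [pow_succ, pow_succ]
    refine (Ideal.mul_mono_left ih).trans ?_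
    rw [Ideal.sup_mul, Ideal.mul_sup]
    refine sup_le (sup_le ?_ ?_) ?_
    · exact Ideal.mul_le_left.trans le_sup_left
    · exact Ideal.mul_le_left.trans le_sup_left
    · rw [Ideal.mul_sup]
      exact sup_le (Ideal.mul_le_right.trans le_sup_left) le_sup_right

/-- The length of a chain `I = Q 0 ≥ Q 1 ≥ ... ≥ Q l` of ideals whose layers are `𝒪_C(-1)` is
bounded, if `I₀ ^ (N + 1)` is contained in `Q l`. -/
theorem chain_bound (X : Nbhd k) [IsNoetherianRing X.B₀] (N : ℕ) : ∃ D : ℕ,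
    ∀ (l : ℕ) (Q : ℕ → Ideal X.B), Q 0 = RingHom.ker X.res →
      (∀ i < l, Q (i + 1) ≤ Q i ∧ ∃ θ : Q i →+ k[T;T⁻¹],
        (∀ (b : X.B) (q : Q i), θ (b • q) = X.res b * θ q) ∧
        (∀ q : Q i, θ q = 0 ↔ (q : X.B) ∈ Q (i + 1)) ∧
        (∀ q : Q i, (q : X.B) ∈ X.B₀ → θ q ∈ Reg0 k) ∧
        (∃ q : Q i, (q : X.B) ∈ X.B₀ ∧ θ q = 1)) →
      (∀ b : X.B₀, b ∈ (ideal0 X) ^ (N + 1) → (b : X.B) ∈ Q l) → l ≤ D := by
  classical
  -- the finite dimensional space `I₀ / (x I₀ + I₀ ^ (N + 1))`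
  let J : Ideal X.B₀ := Ideal.span {x0 X} * ideal0 X ⊔ (ideal0 X) ^ (N + 1)
  let m : Ideal X.B₀ := Ideal.span {x0 X} ⊔ ideal0 X
  let M := (ideal0 X) ⧸ (J.submoduleOf (ideal0 X))
  have hfin : Module.Finite k M := by
    have hfg : Module.Finite X.B₀ (ideal0 X) :=
      Module.Finite.iff_fg.2 (IsNoetherian.noetherian _)
    refine finite_of_pow m (IsNoetherian.noetherian _) (res_const X) N M ?_
    intro a ha y
    obtain ⟨⟨z, hz⟩, rfl⟩ := Submodule.Quotient.mk_surjective _ y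
    rw [← Submodule.Quotient.mk_smul, Submodule.Quotient.mk_eq_zero]
    show a * z ∈ J
    have h2 := sup_pow_le _ _ N ha
    obtain ⟨s, hs, t, ht, rfl⟩ := Submodule.mem_sup.1 h2
    rw [add_mul]
    refine Submodule.add_mem_sup (Ideal.mul_mem_mul hs hz) ?_
    rw [pow_succ]
    exact Ideal.mul_mem_mul ht hz
  refine ⟨Module.finrank k M, fun l Q hQ0 hQ hN => ?_⟩
  have hanti : ∀ i j, i ≤ j → j ≤ l → Q j ≤ Q i := by
    intro i j hij
    induction j, hij using Nat.le_induction with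
    | base => intro _; exact le_rfl
    | succ j hij ih => intro hj; exact ((hQ j (by omega)).1).trans (ih (by omega))
  -- the subspaces
  let W : ℕ → Submodule k M := fun i =>
    ((Submodule.map (J.submoduleOf (ideal0 X)).mkQ
      (((Q i).comap X.B₀.val).submoduleOf (ideal0 X)))).restrictScalars k
  refine chain_le_finrank l W fun i hi => ?_
  obtain ⟨hle, θ, hθ, hker, h0, ⟨q, hq, hq1⟩⟩ := hQ i hi
  rw [lt_iff_le_and_ne]
  refine ⟨?_, fun heq => ?_⟩
  · intro y hy
    obtain ⟨z, hz, rfl⟩ := hy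
    exact ⟨z, hle hz, rfl⟩
  · have hqI : X.res (q : X.B) = 0 := by
      have h1 := hanti 0 i (by omega) (by omega) q.2
      rwa [hQ0, RingHom.mem_ker] at h1
    let z : ideal0 X := ⟨⟨q, hq⟩, (mem_ideal0 X _).2 hqI⟩
    have h1 : (J.submoduleOf (ideal0 X)).mkQ z ∈ W i := ⟨z, q.2, rfl⟩
    rw [← heq] at h1
    obtain ⟨z', hz', hzz⟩ := h1
    have h2 : z' - z ∈ J.submoduleOf (ideal0 X) := (Submodule.Quotient.eq _).1 hzz
    have h2' : (z' : X.B₀) - (z : X.B₀) ∈ J := h2
    obtain ⟨s, hs, t, ht, hst⟩ := Submodule.mem_sup.1 h2'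
    rw [Ideal.mem_span_singleton_mul] at hs
    obtain ⟨a, ha, rfl⟩ := hs
    -- `q = q' - x a - t`
    have hz'Q : ((z' : X.B₀) : X.B) ∈ Q (i + 1) := hz'
    have htQ : ((t : X.B₀) : X.B) ∈ Q (i + 1) := hanti (i + 1) l (by omega) le_rfl (hN t ht)
    have h3 : (X.x : X.B) * (a : X.B) + (t : X.B) = (z' : X.B₀) - (q : X.B) := by
      have := congrArg (fun y : X.B₀ => (y : X.B)) hst
      exact this
    have h4 : (X.x : X.B) * (a : X.B) ∈ Q i := by
      have h5 : (X.x : X.B) * (a : X.B) = ((z' : X.B₀) : X.B) - q - t := by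
        rw [← h3]; ring
      rw [h5]
      exact Ideal.sub_mem _ (Ideal.sub_mem _ (hle hz'Q) q.2) (hle htQ)
    have h5 : (a : X.B) ∈ Q i := by
      have h6 := Ideal.mul_mem_left (Q i) ((X.x⁻¹ : X.Bˣ) : X.B) h4
      rwa [← mul_assoc, Units.inv_mul, one_mul] at h6
    have h6 := h0 ⟨a, h5⟩ a.2
    -- apply `θ` to `q + x a ∈ Q (i+1)`
    have h7 : θ (q + (X.x : X.B) • ⟨a, h5⟩) = 0 := by
      rw [hker]
      show (q : X.B) + (X.x : X.B) * (a : X.B) ∈ Q (i + 1)
      have h8 : (q : X.B) + (X.x : X.B) * (a : X.B) = ((z' : X.B₀) : X.B) - t := by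
        have h9 : (X.x : X.B) * (a : X.B) = ((z' : X.B₀) : X.B) - q - t := by
          rw [← h3]; ring
        rw [h9]; ring
      rw [h8]
      exact Ideal.sub_mem _ hz'Q htQ
    rw [map_add, hθ, hq1, X.res_x] at h7
    have h8 : θ ⟨a, h5⟩ = - T (-1) := by
      have h9 : T (-1) * (1 + T 1 * θ ⟨a, h5⟩) = 0 := by rw [h7, mul_zero]
      rw [mul_add, ← mul_assoc, ← T_add, mul_one] at h9
      norm_num at h9
      linear_combination h9
    rw [h8] at h6
    have h9 := h6 (-1) (by norm_num)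
    simp at h9

end Pool.Agent.H60DW
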